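import Pool.Agent.N976.DI.Main
import Pool.Agent.H772R2.NS.PubBridge
import Pool.Agent.H772R2.NSR.PubR

/-!
# Dirichlet problem: strong solutions of the exact Navier-Stokes equations under sparse workless
constraints cease to exist in finite time, in every open set

We consider the Navier-Stokes equations with zero boundary values in an open set `Ω ⊆ ℝ³`, with the
exact nonlinearity, pressure and viscosity and without force, under linear constraints
`∫ u(t) · r_i = 0` imposed through their reaction forces (d'Alembert's principle): the equations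
are tested with all `v ∈ V = H¹_{0,σ}(Ω)` which satisfy the constraints. The reaction forces do no
work. (With finitely many constraints the reaction force would be bounded and smooth in `x`: just
the Navier-Stokes equations with a harmless force.) The constraint fields are four fixed `C^∞`
fields supported in a ball, all their dilates with the ratios `R^n`, `n ≥ 0`, and one more field:
`O(log N / log R)` fields at the frequencies up to `N`, and `R` is as large as we want.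

Strong solutions are those of the problem: `∂ₜu ∈ L²(0,T;V) ∩ L^∞(0,T;H)`. For every `Ω`, every
viscosity and every ball in `Ω` there is a divergence-free datum in `C_c^∞(Ω)` for which the strong
solution exists, is smooth and unique up to a finite time, and not beyond.
-/

open Set MeasureTheory
open scoped ContDiff InnerProductSpace

namespace Pool.Agent.Results.MP_fd8964_an.SparseConstraints

open H772R2.NS.Pub

/-- The entry `(i, j)` of a matrix. -/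
def entry (A : Mat) (i j : Fin 3) : ℝ := (show EuclideanSpace ℝ (Fin 3 × Fin 3) from A) (i, j)

/-- The product of a matrix and a vector: `mulVec (∇v) a = (a·∇) v`. -/
noncomputable def mulVec (A : Mat) (a : R3) : R3 :=
  WithLp.toLp 2 fun i : Fin 3 => ∑ j : Fin 3, entry A i j * ⟪e j, a⟫_ℝ

/-- `v` satisfies the constraints `∫ v · r i = 0`. -/
def Con {ι : Type} {Ω : Set R3} (r : ι → R3 → R3) (v : L2 Ω R3) : Prop :=
  ∀ i, ∫ x in Ω, ⟪v.fn x, r i x⟫_ℝ = 0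

/-- `∫ u · (u·∇)v - ν ∫ ∇u : ∇v`, with `w = ∇u`, `z = ∇v`. -/
noncomputable def form {Ω : Set R3} (ν : ℝ) (u : L2 Ω R3) (w z : L2 Ω Mat) : ℝ :=
  (∫ x in Ω, ⟪u.fn x, mulVec (z.fn x) (u.fn x)⟫_ℝ) - ν * ⟪w, z⟫_ℝ

/-- Strong solutions `u` on `[0, T]` of the Navier-Stokes equations in `Ω` with viscosity `ν`, zero
boundary values and no force, under the constraints `∫ u(t) · r i = 0`; `G = ∇u`, `u' = ∂ₜu`,
`G' = ∇∂ₜu`:
* `u(t) ∈ V = H¹_{0,σ}(Ω)` with gradient `G(t)` and `u(t)` satisfies the constraints, for every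
  `t ∈ [0, T]`;
* `u ∈ H¹(0,T; L²)`, `∇u ∈ H¹(0,T; L²)`, `∂ₜu(t) ∈ V` for almost every `t`, so that
  `∂ₜu ∈ L²(0,T; V)`, and `∂ₜu ∈ L^∞(0,T; L²)`;
* the equations hold in the weak sense, integrated in time, tested with all `v ∈ V` which satisfy
  the constraints. -/
structure Strong {ι : Type} (Ω : Set R3) (ν T : ℝ) (r : ι → R3 → R3) (u u' : ℝ → L2 Ω R3)
    (G G' : ℝ → L2 Ω Mat) : Prop where
  grad : ∀ t ∈ Icc 0 T, (u t, G t) ∈ H1graph Ω
  gradDeriv : ∀ᵐ t ∂(volume.restrict (Ioc 0 T)), (u' t, G' t) ∈ H1graph Ω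
  hu : IsH1 T u u'
  hG : IsH1 T G G'
  bdd : ∃ M, ∀ᵐ t ∂(volume.restrict (Ioc 0 T)), ‖u' t‖ ≤ M
  con : ∀ t ∈ Icc 0 T, Con r (u t)
  eqn : ∀ v z, (v, z) ∈ H1graph Ω → Con r v → ∀ t ∈ Icc 0 T,
    ⟪u t, v⟫_ℝ - ⟪u 0, v⟫_ℝ = ∫ s in (0 : ℝ)..t, form ν (u s) (G s) z

/-- The constraint fields, translated to `x₀` and dilated to the radius `ℓ`: `r0(y)` and the dilates
`r k (R^n y)`, `n ≥ 0`, of four fields, `y = (x - x₀)/ℓ`. -/
noncomputable def fld (x₀ : R3) (ℓ R : ℝ) (r0 : R3 → R3) (r : Fin 4 → R3 → R3) :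
    Option (Fin 4 × ℕ) → R3 → R3
  | none => fun x => r0 (ℓ⁻¹ • (x - x₀))
  | some p => fun x => r p.1 (R ^ p.2 • ℓ⁻¹ • (x - x₀))

/-- The field is `C^∞` and vanishes for `|y| ≥ 1`. -/
def Loc (v : R3 → R3) : Prop := ContDiff ℝ ∞ v ∧ ∀ y, 1 ≤ ‖y‖ → v y = 0

/-- `u` is a strong solution on `[0, T]` with the initial values `v`. -/
def StrongFrom {ι : Type} (Ω : Set R3) (ν T : ℝ) (r : ι → R3 → R3) (v : R3 → R3)
    (u : ℝ → L2 Ω R3) : Prop :=
  IsClass (u 0) v ∧ ∃ u' G G', Strong Ω ν T r u u' G G'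

theorem mulVec_eq (A : H772R2.NS.M3) (a : H772R2.NS.E3) :
    (mulVec A a : H772R2.NS.E3) = Pool.Agent.N976.DI.mv A a := by
  have h : ∀ i : Fin 3, ∀ a : H772R2.NS.E3, ⟪(e i : H772R2.NS.E3), a⟫_ℝ = a i := fun i a => by
    rw [inner_e]
  show WithLp.toLp 2 (fun i : Fin 3 => ∑ j : Fin 3, entry A i j
    * ⟪(e j : H772R2.NS.E3), a⟫_ℝ) = _
  simp only [h]
  rfl

theorem form_eq {Ω : Set H772R2.NS.E3} (ν : ℝ) (u : H772R2.NS.L2V Ω) (w z : H772R2.NS.L2M Ω) :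
    form (Ω := Ω) ν u w z =
      (∫ x in Ω, ⟪u x, Pool.Agent.N976.DI.mv (z x) (u x)⟫_ℝ) - ν * ⟪w, z⟫_ℝ := by
  have e1 : (∫ x in Ω, ⟪L2.fn (Ω := Ω) (E := R3) u x,
      mulVec (L2.fn (Ω := Ω) (E := Mat) z x) (L2.fn (Ω := Ω) (E := R3) u x)⟫_ℝ) =
      ∫ x in Ω, ⟪u x, Pool.Agent.N976.DI.mv (z x) (u x)⟫_ℝ := by
    refine integral_congr_ae (μ := (volume : Measure H772R2.NS.E3).restrict Ω) ?_
    filter_upwards with x
    exact congrArg (fun y : H772R2.NS.E3 => ⟪u x, y⟫_ℝ) (mulVec_eq (z x) (u x))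
  unfold form
  exact congrArg₂ (· - ·) e1 rfl

theorem mem_iff {Ω : Set R3} (v : H772R2.NS.L2V (Ω : Set H772R2.NS.E3))
    (z : H772R2.NS.L2M (Ω : Set H772R2.NS.E3)) :
    (v, z) ∈ H772R2.NS.H1graph (Ω : Set H772R2.NS.E3) ↔
      (v, z) ∈ (H1graph Ω : Set (H772R2.NS.L2V (Ω : Set H772R2.NS.E3) ×
        H772R2.NS.L2M (Ω : Set H772R2.NS.E3))) :=
  ⟨fun h => mem_pub.mp (H772R2.NS.mem_graphW.mpr h),
    fun h => H772R2.NS.mem_graphW.mp (mem_pub.mpr h)⟩

theorem strong_of {ι : Type} {Ω : Set R3} {ν T : ℝ}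
    {r : ι → H772R2.NS.E3 → H772R2.NS.E3} {u u' : ℝ → H772R2.NS.L2V (Ω : Set H772R2.NS.E3)}
    {G G' : ℝ → H772R2.NS.L2M (Ω : Set H772R2.NS.E3)}
    (h : Pool.Agent.N976.DI.CSt (Ω : Set H772R2.NS.E3) ν T r u u' G G') :
    Strong Ω ν T (r : ι → R3 → R3) u u' G G' := by
  refine ⟨fun t ht => (mem_iff _ _).1 (h.grad t ht), ?_, ⟨h.hu.memLp, h.hu.prim⟩,
    ⟨h.hG.memLp, h.hG.prim⟩, h.bdd, h.con, ?_⟩
  · filter_upwards [h.gradDeriv] with t h1
    exact (mem_iff _ _).1 h1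
  · intro v z hv hc t ht
    refine (h.eqn v z ((mem_iff v z).2 hv) hc t ht).trans ?_
    exact intervalIntegral.integral_congr fun s _ => (form_eq ν (u s) (G s) z).symm

theorem of_strong {ι : Type} {Ω : Set R3} {ν T : ℝ}
    {r : ι → H772R2.NS.E3 → H772R2.NS.E3} {u u' : ℝ → H772R2.NS.L2V (Ω : Set H772R2.NS.E3)}
    {G G' : ℝ → H772R2.NS.L2M (Ω : Set H772R2.NS.E3)}
    (h : Strong Ω ν T (r : ι → R3 → R3) u u' G G') :
    Pool.Agent.N976.DI.CSt (Ω : Set H772R2.NS.E3) ν T r u u' G G' := by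
  refine ⟨fun t ht => (mem_iff _ _).2 (h.grad t ht), ?_, ⟨h.hu.memLp, h.hu.prim⟩,
    ⟨h.hG.memLp, h.hG.prim⟩, h.bdd, h.con, ?_⟩
  · filter_upwards [h.gradDeriv] with t h1
    exact (mem_iff _ _).2 h1
  · intro v z hv hc t ht
    refine (h.eqn v z ((mem_iff v z).1 hv) hc t ht).trans ?_
    exact intervalIntegral.integral_congr fun s _ => form_eq ν (u s) (G s) z

/-- For every `R₀` there are `R ≥ R₀` and `C^∞` fields `P`, `r0`, `r k`, `k < 4`, vanishing for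
`|y| ≥ 1`, with `div P = 0`, such that for every open set `Ω`, every closed ball in `Ω` (centre
`x₀`, radius `ℓ`) and every viscosity `ν > 0` there is `T ∈ (0, ∞)` and a field `U`, `C^∞` on
`[0, T) × ℝ³`, with `U(0, x) = (ν/ℓ) P((x - x₀)/ℓ)`, such that for the Navier-Stokes equations with
zero boundary values in `Ω` under the constraints `∫ u(x) · r0((x - x₀)/ℓ) dx = 0`,
`∫ u(x) · r k(R^n (x - x₀)/ℓ) dx = 0`, `k < 4`, `n ≥ 0`, and for the initial velocity `U(0)`: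
* for every `T' < T` there is a strong solution on `[0, T']`;
* every strong solution on any `[0, T']` has `T' < T` and is equal to `U`. -/
theorem result (R₀ : ℝ) :
    ∃ (R : ℝ) (P r0 : R3 → R3) (r : Fin 4 → R3 → R3), R₀ ≤ R ∧ 1 < R ∧
      Loc P ∧ (∀ y, dvg P y = 0) ∧ Loc r0 ∧ (∀ k, Loc (r k)) ∧
      ∀ (Ω : Set R3) (x₀ : R3) (ℓ ν : ℝ), IsOpen Ω → 0 < ℓ → 0 < ν →
        (∀ x, ‖x - x₀‖ ≤ ℓ → x ∈ Ω) → ∃ (T : ℝ) (U : ℝ → R3 → R3), 0 < T ∧
        ContDiffOn ℝ ∞ (fun z : ℝ × R3 => U z.1 z.2) (Ico 0 T ×ˢ univ) ∧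
        (∀ x, U 0 x = (ν / ℓ) • P (ℓ⁻¹ • (x - x₀))) ∧
        (∀ T' : ℝ, 0 < T' → T' < T →
          ∃ u, StrongFrom Ω ν T' (fld x₀ ℓ R r0 r) (U 0) u) ∧
        ∀ (T' : ℝ) (u : ℝ → L2 Ω R3), 0 < T' →
          StrongFrom Ω ν T' (fld x₀ ℓ R r0 r) (U 0) u →
          T' < T ∧ ∀ t ∈ Icc 0 T', IsClass (u t) (U t) := by
  obtain ⟨R, P, r0, r, hR, hR1, hP, hdP, hr0, hr, h⟩ := Pool.Agent.N976.DI.main R₀
  have eF : ∀ (x₀ : H772R2.NS.E3) (ℓ : ℝ),
      Pool.Agent.N976.DI.cf x₀ ℓ (Pool.Agent.N976.SC.fld R r0 r) = fld x₀ ℓ R r0 r := by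
    intro x₀ ℓ
    funext i
    rcases i with _ | p <;> rfl
  refine ⟨R, P, r0, r, hR, hR1, hP, ?_, hr0, hr, fun Ω x₀ ℓ ν hΩ hℓ hν hb => ?_⟩
  · intro y
    refine Eq.trans ?_ (hdP y)
    unfold dvg
    refine Finset.sum_congr rfl fun i _ => ?_
    exact inner_e i _
  have hb' : Metric.closedBall (show H772R2.NS.E3 from x₀) ℓ ⊆ (show Set H772R2.NS.E3 from Ω) := by
    intro x hx
    rw [Metric.mem_closedBall, dist_eq_norm] at hx
    exact hb x hx
  obtain ⟨T, U, hT, hsm, hU0, hex, huni⟩ := h Ω x₀ ℓ ν hΩ hℓ hν hb'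
  refine ⟨T, U, hT, hsm, hU0, ?_, ?_⟩
  · intro T' h0 h1
    obtain ⟨u, u', G, G', h2, h3⟩ := hex T' h0 h1
    exact ⟨u, h3, u', G, G',
      (congrArg (fun f : Option (Fin 4 × ℕ) → R3 → R3 => Strong Ω ν T' f u u' G G')
        (eF x₀ ℓ)).mp (strong_of h2)⟩
  · rintro T' u h0 ⟨h3, u', G, G', h2⟩
    exact huni T' u u' G G' h0 (of_strong
      ((congrArg (fun f : Option (Fin 4 × ℕ) → R3 → R3 => Strong Ω ν T' f u u' G G')
        (eF x₀ ℓ)).mpr h2)) h3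

end Pool.Agent.Results.MP_fd8964_an.SparseConstraints
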