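import Pool.Agent.N976.EC.U10

/-!
# Blow-up for the exact Euler equations on the torus under sparse workless constraints

We consider the Euler equations on `𝕋³ = (ℝ / 2πℤ)³` with the exact nonlinearity, under linear
constraints `∫ u(t) · r_i = 0` imposed through their reaction forces (d'Alembert's principle):
`∂ₜu + (u·∇)u + ∇p = Σ λ_i(t) r_i`, that is, the left-hand side is orthogonal to every
divergence-free field which satisfies the constraints. The reaction forces do no work: the energy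
is conserved, and classical solutions are unique. (With finitely many constraints the reaction
force would be bounded and smooth in `x`.) The constraint fields are two fixed `C^∞` fields
supported in the unit ball and all their dilates `r_k(R^n x)`, `n ≥ 0`: at most
`2 + 2 log N / log R` fields at the frequencies up to `N`, and `R` is as large as we want. There is
a `C^∞` divergence-free field `P` supported in the unit ball such that all the data
`∑ a_n P(R^n x)` (finite sums) with `∑ θ^n a_n > 0`, a half-space, lead to blow-up in finite time.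
-/

open Set MeasureTheory
open scoped ContDiff

namespace Pool.Agent.Results.MP_b0497c_an.SparseConstraints

/-- The space `ℝ³`. -/
abbrev V := Fin 3 → ℝ

/-- `v` is `2π`-periodic in each coordinate. -/
def Per (v : V → V) : Prop := ∀ (i : Fin 3) (x : V), v (x + Pi.single i (2 * Real.pi)) = v x

/-- The cube `[-π, π]³`. -/
def Q : Set V := Icc (fun _ => -Real.pi) (fun _ => Real.pi)

/-- The divergence `div v`. -/
noncomputable def divT (v : V → V) (x : V) : ℝ := ∑ i, fderiv ℝ v x (Pi.single i 1) i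

/-- The field `(a · ∇) b`. -/
noncomputable def advT (a b : V → V) (x : V) : V := fderiv ℝ b x (a x)

/-- `∫ v · w` over the cube. -/
noncomputable def ipT (v w : V → V) : ℝ := ∫ x in Q, ∑ i, v x i * w x i

/-- The time derivative `∂ₜ u` on `[0, T)` (one-sided at `t = 0`). -/
noncomputable def dtT (T : ℝ) (u : ℝ → V → V) (t : ℝ) (x : V) : V :=
  derivWithin (fun τ => u τ x) (Ico 0 T) t

/-- The partial derivative `∂ⱼ vᵢ (x)`. -/
noncomputable def pdT (v : V → V) (x : V) (j i : Fin 3) : ℝ := fderiv ℝ v x (Pi.single j 1) i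

/-- The vorticity `curl v`. -/
noncomputable def curlT (v : V → V) (x : V) : V :=
  ![pdT v x 1 2 - pdT v x 2 1, pdT v x 2 0 - pdT v x 0 2, pdT v x 0 1 - pdT v x 1 0]

/-- `∂ₜu + (u·∇)u` at the time `t`. -/
noncomputable def resT (T : ℝ) (u : ℝ → V → V) (t : ℝ) (x : V) : V :=
  dtT T u t x + advT (u t) (u t) x

/-- Continuously differentiable, periodic, divergence-free fields. -/
structure FldT (w : V → V) : Prop where
  c1 : ContDiff ℝ 1 w
  per : Per w
  div : ∀ x, divT w x = 0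

/-- Classical solutions (continuously differentiable in `t` and `x`) on `[0, T) × 𝕋³` of the Euler
equations under the constraints `∫ u(t) · r i = 0`: `∂ₜu + (u·∇)u` is orthogonal to every
continuously differentiable, periodic, divergence-free field which satisfies the constraints. -/
structure SolT {ι : Type} (r : ι → V → V) (T : ℝ) (u : ℝ → V → V) : Prop where
  c1 : ContDiffOn ℝ 1 (fun z : ℝ × V => u z.1 z.2) (Ico 0 T ×ˢ univ)
  per : ∀ t ∈ Ico 0 T, Per (u t)
  div : ∀ t ∈ Ico 0 T, ∀ x, divT (u t) x = 0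
  con : ∀ t ∈ Ico 0 T, ∀ i, ipT (u t) (r i) = 0
  eqn : ∀ t ∈ Ico 0 T, ∀ w, FldT w → (∀ i, ipT w (r i) = 0) → ipT (resT T u t) w = 0

/-- The constraint fields `r k (R^n x)`, `k < 2`, `n ≥ 0`. -/
noncomputable def fldT (R : ℝ) (r : Fin 2 → V → V) (p : Fin 2 × ℕ) (x : V) : V :=
  r p.1 (R ^ p.2 • x)

/-- The field is `C^∞` and vanishes for `|x| ≥ 1`. -/
def LocT (v : V → V) : Prop := ContDiff ℝ ∞ v ∧ ∀ x : V, 1 ≤ ∑ i, x i ^ 2 → v x = 0

/-- The residual `∂ₜu + (u·∇)u` is the sum of the reaction forces `l i (t) r i` (in the cube; the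
coefficients are continuous in time and rapidly decreasing in the scale). -/
structure Reaction (R : ℝ) (r : Fin 2 → V → V) (T : ℝ) (u : ℝ → V → V)
    (l : Fin 2 × ℕ → ℝ → ℝ) : Prop where
  cont : ∀ i, ContinuousOn (l i) (Ico 0 T)
  rapid : ∀ k : ℕ, ∀ T' < T, ∃ M, ∀ t ∈ Icc 0 T', ∀ i n, R ^ (k * n) * |l (i, n) t| ≤ M
  sum : ∀ t ∈ Ico 0 T, ∀ x ∈ Q, HasSum (fun i => l i t • fldT R r i x) (resT T u t x)

/-- For every `R₀` there are `R ≥ R₀`, `0 < θ < 1` and `C^∞` fields `P`, `r k`, `k < 2`, vanishing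
for `|x| ≥ 1`, with `div P = 0`, such that for all `m` and `a_n` with `∑_{n < m} θ^n a_n > 0` the
Euler equations on `𝕋³` under the constraints `∫ u(x) · r k (R^n x) dx = 0`, `k < 2`, `n ≥ 0`, have
a classical solution `u` on `[0, T) × 𝕋³`, `T < ∞`, with `u(0, x) = ∑_{n < m} a_n P(R^n x)` in
the cube, such that
* `u` is `C^∞` in `(t, x)` on `[0, T) × 𝕋³` and vanishes in the cube for `|x| ≥ 1`;
* `∂ₜu + (u·∇)u = ∑ l_{k,n}(t) r_k(R^n x)` with `l_{k,n}` continuous and rapidly decreasing in `n`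
  (the reaction forces; the pressure is zero);
* `T` is the maximal time of existence: a classical solution on any `[0, T')` with the same initial
  values has `T' ≤ T` and agrees with `u`;
* the energy is conserved: the constraints do no work;
* the vorticity is unbounded. -/
theorem result (R₀ : ℝ) :
    ∃ (R θ : ℝ) (P : V → V) (r : Fin 2 → V → V), R₀ ≤ R ∧ 1 < R ∧ 0 < θ ∧ θ < 1 ∧
      LocT P ∧ (∀ x, divT P x = 0) ∧ (∀ k, LocT (r k)) ∧
      ∀ (m : ℕ) (a : ℕ → ℝ), 0 < ∑ n ∈ Finset.range m, θ ^ n * a n →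
        ∃ (T : ℝ) (u : ℝ → V → V) (l : Fin 2 × ℕ → ℝ → ℝ), 0 < T ∧ SolT (fldT R r) T u ∧
        (∀ x ∈ Q, u 0 x = ∑ n ∈ Finset.range m, a n • P (R ^ n • x)) ∧
        ContDiffOn ℝ ∞ (fun z : ℝ × V => u z.1 z.2) (Ico 0 T ×ˢ univ) ∧
        (∀ t ∈ Ico 0 T, ∀ x ∈ Q, 1 ≤ ∑ i, x i ^ 2 → u t x = 0) ∧
        Reaction R r T u l ∧
        (∀ (T' : ℝ) (v : ℝ → V → V), 0 < T' → SolT (fldT R r) T' v → v 0 = u 0 →
          T' ≤ T ∧ ∀ t ∈ Ico 0 T', v t = u t) ∧
        (∀ t ∈ Ico 0 T, ipT (u t) (u t) = ipT (u 0) (u 0)) ∧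
        ∀ M : ℝ, ∃ t ∈ Ico 0 T, ∃ x i, M < |curlT (u t) x i| := by
  have eF : ∀ w : V → V, Pool.Agent.N976.EC.FldT w ↔ FldT w := fun w =>
    ⟨fun h => ⟨h.c1, h.per, h.div⟩, fun h => ⟨h.c1, h.per, h.div⟩⟩
  have eS : ∀ (ι : Type) (r : ι → V → V) (T : ℝ) (u : ℝ → V → V),
      Pool.Agent.N976.EC.SolT r T u ↔ SolT r T u := by
    intro ι r T u
    exact ⟨fun h => ⟨h.c1, h.per, h.div, h.con, fun t ht w hw hc =>
      h.eqn t ht w ((eF w).2 hw) hc⟩, fun h => ⟨h.c1, h.per, h.div, h.con, fun t ht w hw hc =>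
      h.eqn t ht w ((eF w).1 hw) hc⟩⟩
  obtain ⟨R, θ, P, r, hR, hR1, hθ0, hθ1, hP, hdP, hr, h⟩ := Pool.Agent.N976.EC.main2 R₀
  refine ⟨R, θ, P, r, hR, hR1, hθ0, hθ1, hP, hdP, hr, fun m a ha => ?_⟩
  obtain ⟨T, u, l, hT, hSol, hsm, hu0, huo, hres, huni, hen, hbl⟩ := h m a ha
  refine ⟨T, u, l, hT, (eS _ _ T u).1 hSol, hu0, hsm, huo, ⟨hres.1, hres.2.1, hres.2.2⟩, ?_, hen,
    hbl⟩
  intro T' v hT' hv hv0
  exact huni T' v hT' ((eS _ _ T' v).2 hv) hv0

end Pool.Agent.Results.MP_b0497c_an.SparseConstraints
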