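import Pool.Agent.N976.UE.Final

/-!
# Concentration of the energy at one point for the exact Navier-Stokes equations under very sparse
workless constraints

We consider the Navier-Stokes equations on `ℝ³` with the exact nonlinearity, pressure and
viscosity and without force, under linear constraints `∫ u(t,y) · r_p(y) dy = 0` imposed through
their reaction forces (d'Alembert's principle): `∂ₜu + (u·∇)u - νΔu + ∇p = Σ λ_p(t) r_p`, that is,
the left-hand side is orthogonal to every divergence-free field which satisfies the constraints.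
The reaction forces do no work, the energy identity holds and classical solutions are unique. (With
finitely many constraints the reaction force would be bounded and smooth in `y`: just the
Navier-Stokes equations with a harmless force.) The constraint fields `r (i, n)` are `C^∞`, four
for every `n`, and vanish for `|y| ≥ R^(-(6/5)^n)`: for `δ ≤ 1/R` at most
`4 (1 + log log (1/δ) / log (6/5))` of them are not supported in the ball `|y| < δ`, and `R` is as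
large as we want.

For every `ε > 0` and every viscosity there is a `C^∞` datum supported in the unit ball, with a
`C^∞` solution up to a finite time `T`, which loses at most the fraction `ε` of its energy by
viscosity, while for every `δ > 0` the part of the energy outside the ball `|y| < δ` is at most the
fraction `ε` near the time `T`: almost all the energy concentrates at one point.
-/

open Set MeasureTheory
open scoped ContDiff

namespace Pool.Agent.N976.Shelf.NSEnergyConcentration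

/-- The space `ℝ³`. -/
abbrev E3 := EuclideanSpace ℝ (Fin 3)

/-- The standard basis. -/
noncomputable def bv (i : Fin 3) : E3 := EuclideanSpace.single i 1

/-- The divergence `div v`. -/
noncomputable def divg (v : E3 → E3) (y : E3) : ℝ := ∑ i : Fin 3, (fderiv ℝ v y (bv i)) i

/-- The field `(a · ∇) b`. -/
noncomputable def adv (a b : E3 → E3) (y : E3) : E3 := fderiv ℝ b y (a y)

/-- The Laplacian `Δ v`. -/
noncomputable def lap (v : E3 → E3) (y : E3) : E3 :=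
  ∑ i : Fin 3, fderiv ℝ (fun z => fderiv ℝ v z (bv i)) y (bv i)

/-- `∫ v · w`. -/
noncomputable def ip (v w : E3 → E3) : ℝ := ∫ y, inner ℝ (v y) (w y)

/-- `∫ |∇v|²`. -/
noncomputable def dir (v : E3 → E3) : ℝ := ∫ y, ∑ i : Fin 3, ‖fderiv ℝ v y (bv i)‖ ^ 2

/-- The time derivative `∂ₜ u` on `[0, T)` (one-sided at `t = 0`). -/
noncomputable def dt (T : ℝ) (u : ℝ → E3 → E3) (t : ℝ) (y : E3) : E3 :=
  derivWithin (fun τ => u τ y) (Ico 0 T) t

/-- `|v|, |Dv|, |D²v| ≤ M (1 + |y|)⁻²`. -/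
structure Dec (M : ℝ) (v : E3 → E3) : Prop where
  d0 : ∀ y, (1 + ‖y‖) ^ 2 * ‖v y‖ ≤ M
  d1 : ∀ y, (1 + ‖y‖) ^ 2 * ‖fderiv ℝ v y‖ ≤ M
  d2 : ∀ y i j, (1 + ‖y‖) ^ 2 * ‖fderiv ℝ (fun z => fderiv ℝ v z (bv i)) y (bv j)‖ ≤ M

/-- Smooth divergence-free fields, which decay together with two derivatives. -/
structure Fld (v : E3 → E3) : Prop where
  smooth : ContDiff ℝ ∞ v
  div : ∀ y, divg v y = 0
  dec : ∃ M, Dec M v

/-- `∂ₜu + (u·∇)u - νΔu` at the time `t`. -/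
noncomputable def res (ν T : ℝ) (u : ℝ → E3 → E3) (t : ℝ) (y : E3) : E3 :=
  dt T u t y + adv (u t) (u t) y - ν • lap (u t) y

/-- Classical solutions on `[0, T)` of the Navier-Stokes equations with viscosity `ν` under the
constraints `∫ u(t) · r i = 0`: the left-hand side `∂ₜu + (u·∇)u - νΔu` is orthogonal to every
smooth decaying divergence-free field which satisfies the constraints. -/
structure Sol {ι : Type} (ν : ℝ) (r : ι → E3 → E3) (T : ℝ) (u : ℝ → E3 → E3) : Prop where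
  c1 : ContDiffOn ℝ 1 (fun z : ℝ × E3 => u z.1 z.2) (Ico 0 T ×ˢ univ)
  smooth : ∀ t ∈ Ico 0 T, ContDiff ℝ ∞ (u t)
  div : ∀ t ∈ Ico 0 T, ∀ y, divg (u t) y = 0
  dec : ∀ T' < T, ∃ M, ∀ t ∈ Icc 0 T', Dec M (u t) ∧ ∀ y, (1 + ‖y‖) ^ 2 * ‖dt T u t y‖ ≤ M
  con : ∀ t ∈ Ico 0 T, ∀ i, ip (u t) (r i) = 0
  eqn : ∀ t ∈ Ico 0 T, ∀ w, Fld w → (∀ i, ip w (r i) = 0) → ip (res ν T u t) w = 0

/-- The radii: `r (i, n)` vanishes for `|y| ≥ R^(-(6/5)^n)`. -/
def Supp (R : ℝ) (r : Fin 4 × ℕ → E3 → E3) : Prop :=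
  ∀ i n y, 1 ≤ R ^ ((6 / 5 : ℝ) ^ n) * ‖y‖ → r (i, n) y = 0

/-- The residual `∂ₜu + (u·∇)u - νΔu` is the sum of the reaction forces `l p (t) r p`; the
coefficients are smooth in time and rapidly decreasing in the scale. -/
structure Reaction (ν R : ℝ) (r : Fin 4 × ℕ → E3 → E3) (T : ℝ) (u : ℝ → E3 → E3)
    (l : Fin 4 × ℕ → ℝ → ℝ) : Prop where
  smooth : ∀ p, ContDiffOn ℝ ∞ (l p) (Ico 0 T)
  rapid : ∀ k : ℕ, ∀ T' < T, ∃ M, ∀ t ∈ Icc 0 T', ∀ i n,
    (R ^ ((6 / 5 : ℝ) ^ n)) ^ k * |l (i, n) t| ≤ M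
  sum : ∀ t ∈ Ico 0 T, ∀ y, HasSum (fun p => l p t • r p y) (res ν T u t y)

/-- The energy identity holds on `[0, T)`, the total loss by viscosity is at most the fraction `ε`
of the energy, but outside of any given ball `|y| < δ` at most the fraction `ε` of the energy is
left near the time `T`. -/
structure Conc (ε ν T : ℝ) (u : ℝ → E3 → E3) : Prop where
  int : ∀ t ∈ Ico 0 T, IntervalIntegrable (fun s => dir (u s)) volume 0 t
  energy : ∀ t ∈ Ico 0 T,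
    ip (u t) (u t) + 2 * (ν * ∫ s in (0 : ℝ)..t, dir (u s)) = ip (u 0) (u 0)
  low : ∀ t ∈ Ico 0 T, (1 - ε) * ip (u 0) (u 0) ≤ ip (u t) (u t)
  out : ∀ δ > 0, ∃ t₀ < T, ∀ t ∈ Ico t₀ T, 0 ≤ t →
    ∫ y in {y : E3 | δ ≤ ‖y‖}, ‖u t y‖ ^ 2 ≤ ε * ip (u 0) (u 0)

/-- For all `R₀` and `ε > 0` there are `R ≥ R₀`, `T₀ > 0` and `C^∞` fields `P`, `r (i, n)` on `ℝ³`,
`i < 4`, `n ≥ 0`, `div P = 0`, `P ≠ 0`, `P = 0` for `|y| ≥ 1`, `r (i, n) = 0` for
`|y| ≥ R^(-(6/5)^n)`, such that for every viscosity `ν > 0` the Navier-Stokes equations under the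
constraints `∫ u · r (i, n) = 0` have a classical solution `u` with `u(0) = ν P` on
`[0, T) × ℝ³`, `T = T₀/ν`, such that
* `u` is `C^∞` in `(t, y)` on `[0, T) × ℝ³` and vanishes for `|y| ≥ 1`;
* `∂ₜu + (u·∇)u - νΔu = ∑ l_{i,n}(t) r_{i,n}(y)` with `l_{i,n}` smooth in time and rapidly
  decreasing in the scale (the reaction forces; the pressure is zero);
* `T` is the maximal time of existence: a classical solution on any `[0, T')` with the same
  initial values has `T' ≤ T` and agrees with `u`;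
* the energy identity holds and `|u(t)|² ≥ (1 - ε) |u(0)|²` in `L²`, for all `t < T`;
* for every `δ > 0`, `∫_{|y| ≥ δ} |u(t)|² ≤ ε |u(0)|²` for all `t < T` near `T`: the energy
  concentrates at the origin. -/
theorem result (R₀ ε : ℝ) (hε : 0 < ε) :
    ∃ (R T₀ : ℝ) (P : E3 → E3) (r : Fin 4 × ℕ → E3 → E3), R₀ ≤ R ∧ 1 < R ∧ 0 < T₀ ∧
      ContDiff ℝ ∞ P ∧ (∀ y, 1 ≤ ‖y‖ → P y = 0) ∧ (∀ y, divg P y = 0) ∧ 0 < ip P P ∧
      (∀ p, ContDiff ℝ ∞ (r p)) ∧ Supp R r ∧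
      ∀ ν : ℝ, 0 < ν → ∃ (u : ℝ → E3 → E3) (l : Fin 4 × ℕ → ℝ → ℝ),
        Sol ν r (T₀ / ν) u ∧ (∀ y, u 0 y = ν • P y) ∧
        ContDiffOn ℝ ∞ (fun z : ℝ × E3 => u z.1 z.2) (Ico 0 (T₀ / ν) ×ˢ univ) ∧
        (∀ t ∈ Ico 0 (T₀ / ν), ∀ y, 1 ≤ ‖y‖ → u t y = 0) ∧
        Reaction ν R r (T₀ / ν) u l ∧
        (∀ (T' : ℝ) (v : ℝ → E3 → E3), 0 < T' → Sol ν r T' v → v 0 = u 0 →
          T' ≤ T₀ / ν ∧ ∀ t ∈ Ico 0 T', v t = u t) ∧
        Conc ε ν (T₀ / ν) u := by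
  have eD : ∀ (M : ℝ) (v : E3 → E3), Pool.Agent.N976.SC.Dec M v ↔ Dec M v :=
    fun M v => ⟨fun h => ⟨h.d0, h.d1, h.d2⟩, fun h => ⟨h.d0, h.d1, h.d2⟩⟩
  have eF : ∀ v : E3 → E3, Pool.Agent.N976.SC.Fld v ↔ Fld v := fun v =>
    ⟨fun h => ⟨h.smooth, h.div, by obtain ⟨M, hM⟩ := h.dec; exact ⟨M, (eD M v).1 hM⟩⟩,
      fun h => ⟨h.smooth, h.div, by obtain ⟨M, hM⟩ := h.dec; exact ⟨M, (eD M v).2 hM⟩⟩⟩
  have eR : ∀ (ν T : ℝ) (u : ℝ → E3 → E3) (t : ℝ),
      (fun y => Pool.Agent.N976.SC.dt T u t y + Pool.Agent.N976.SC.adv (u t) (u t) y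
        - ν • Pool.Agent.N976.SC.lap (u t) y - (0 : E3)) = res ν T u t := by
    intro ν T u t
    ext1 y
    rw [sub_zero]
    rfl
  have eS : ∀ (r : Fin 4 × ℕ → E3 → E3) (ν T : ℝ) (u : ℝ → E3 → E3),
      Pool.Agent.N976.EN.SolF ν r (fun _ _ => 0) T u ↔ Sol ν r T u := by
    intro r ν T u
    constructor
    · intro h
      refine ⟨h.c1, h.smooth, h.div, fun T' hT' => by
        obtain ⟨M, hM⟩ := h.dec T' hT'
        exact ⟨M, fun t ht => ⟨(eD M _).1 (hM t ht).1, (hM t ht).2⟩⟩, h.con, ?_⟩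
      intro t ht w hw hc
      have h1 := h.eqn t ht w ((eF w).2 hw) hc
      rw [eR] at h1
      exact h1
    · intro h
      refine ⟨h.c1, h.smooth, h.div, fun T' hT' => by
        obtain ⟨M, hM⟩ := h.dec T' hT'
        exact ⟨M, fun t ht => ⟨(eD M _).2 (hM t ht).1, (hM t ht).2⟩⟩, h.con, ?_⟩
      intro t ht w hw hc
      rw [eR]
      exact h.eqn t ht w ((eF w).1 hw) hc
  obtain ⟨⟨hX, hY3, hY4, hY5⟩, hZ0, hZ1, hZ2, hZ3, -, -, hZ6⟩ := Pool.Agent.N976.UE.all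
  obtain ⟨R, T₀, P, r, hR, hR1, hT0, hP, hPo, hdP, hPn, hr, hro, h⟩ :=
    Pool.Agent.N976.UE.main_of hX hY3 hY4 hY5 hZ0 hZ1 hZ2 hZ3 hZ6 ε R₀ hε
  refine ⟨R, T₀, P, r, hR, hR1, hT0, hP, hPo, hdP, hPn, hr, hro, fun ν hν => ?_⟩
  obtain ⟨u, l, hSol, hu0, hsm, huo, l1, l2, l3, huni, hen, hout⟩ := h ν hν
  refine ⟨u, l, (eS r ν _ u).1 hSol, hu0, hsm, huo, ⟨l1, l2, l3⟩, ?_, ⟨fun t ht => (hen t ht).1,
    fun t ht => (hen t ht).2.1, fun t ht => (hen t ht).2.2, hout⟩⟩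
  intro T' v hT' hv hv0
  exact huni T' v hT' ((eS r ν T' v).2 hv) hv0

end Pool.Agent.N976.Shelf.NSEnergyConcentration
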